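import Pool.Agent.Helper9.FL.Stm

/-!
Project FL, package DEN: density of the slice.
-/

set_option autoImplicit false

namespace Pool.Agent.Helper2.FL

open FF Module MvPolynomial Pool.Agent.Helper9.FJ Pool.Agent.Helper9.PP Pool.Agent.Helper9.GR
  Pool.Agent.Helper9.FL Matrix

/-- scaling of the variables in a multihomogeneous polynomial -/
theorem aeval_scale {l : ℕ} {r : Fin l → ℕ} {a : Fin l → ℕ} {s : MvPolynomial (Vr r) ℂ}
    (hs : IsMh a s) {F : Type} [Field F] [Algebra ℂ F] (c : Fin l → F) (v : Vr r → F) :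
    aeval (fun x => c x.1 * v x) s = (∏ j, c j ^ a j) * aeval v s := by
  rw [aeval_def, aeval_def, eval₂_eq', eval₂_eq', Finset.mul_sum]
  refine Finset.sum_congr rfl fun α hα => ?_
  have h1 := hs α (by simpa [MvPolynomial.mem_support_iff] using hα)
  have h2 : ∏ x : Vr r, (c x.1 * v x) ^ α x = (∏ j, c j ^ a j) * ∏ x : Vr r, v x ^ α x := by
    rw [Finset.prod_congr rfl (fun x _ => mul_pow (c x.1) (v x) (α x)), Finset.prod_mul_distrib]
    congr 1
    rw [Fintype.prod_sigma]
    refine Finset.prod_congr rfl fun j _ => ?_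
    rw [← h1 j]
    exact Finset.prod_pow_eq_pow_sum Finset.univ (fun y => α ⟨j, y⟩) (c j)
  rw [h2]
  ring

theorem sum_castLE {F : Type} [AddCommMonoid F] {n m : ℕ} (h : n ≤ m) (g : Fin m → F)
    (hg : ∀ c : Fin m, ¬ (c : ℕ) < n → g c = 0) : ∑ c, g c = ∑ c : Fin n, g (Fin.castLE h c) := by
  refine (Fintype.sum_of_injective (Fin.castLE h) (Fin.castLE_injective h)
    (fun c => g (Fin.castLE h c)) g (fun i hi => ?_) (fun _ => rfl)).symm
  apply hg
  intro h1
  exact hi ⟨⟨i, h1⟩, rfl⟩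

section fc

variable {r : ℕ}

theorem fc_apply {R : Type} [Zero R] {k : ℕ} (hk : k ≤ r) (Ξ : Matrix (Fin r) (Fin r) R)
    (i : Fin r) (c : Fin k) : fc k Ξ i c = Ξ i (Fin.castLE hk c) := by
  have h : (c : ℕ) < r := lt_of_lt_of_le c.2 hk
  rw [fc, Matrix.of_apply, dif_pos h]
  rfl

theorem fc_mul {R : Type} [CommRing R] {k : ℕ} (hk : k ≤ r) (A B : Matrix (Fin r) (Fin r) R) :
    fc k (A * B) = A * fc k B := by
  ext i c
  rw [fc_apply hk, Matrix.mul_apply, Matrix.mul_apply]
  exact Finset.sum_congr rfl fun x _ => by rw [fc_apply hk]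

theorem plu_mul_right {R : Type} [CommRing R] {k : ℕ} (M : Matrix (Fin r) (Fin k) R)
    (h : Matrix (Fin k) (Fin k) R) (i : Fin (Rk k r)) : plu (M * h) i = h.det * plu M i := by
  have h1 : (M * h).submatrix (sub k r i) id = M.submatrix (sub k r i) id * h := by
    ext a b
    rw [Matrix.submatrix_apply, Matrix.mul_apply, Matrix.mul_apply]
    rfl
  rw [plu, h1, Matrix.det_mul, plu, mul_comm]

/-- the determinant with the rows `e_S` and the last rows of `V` -/
theorem det_mix {F : Type} [CommRing F] {k : ℕ} (hk : k ≤ r) (V V' : Matrix (Fin r) (Fin r) F)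
    (hV : V * V' = 1) (S : Fin k → Fin r) :
    (Matrix.of fun (a c : Fin r) => if h : (a : ℕ) < k then
      (if c = S ⟨a, h⟩ then (1 : F) else 0) else V a c).det =
      V.det * (V'.submatrix S (Fin.castLE hk)).det := by
  set M : Matrix (Fin r) (Fin r) F := Matrix.of fun (a c : Fin r) => if h : (a : ℕ) < k then
      (if c = S ⟨a, h⟩ then (1 : F) else 0) else V a c with hM
  have hN : ∀ a c, (M * V') a c =
      if h : (a : ℕ) < k then V' (S ⟨a, h⟩) c else (1 : Matrix (Fin r) (Fin r) F) a c := by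
    intro a c
    rw [Matrix.mul_apply]
    split_ifs with h
    · have h1 : ∀ x, M a x * V' x c = if x = S ⟨a, h⟩ then V' x c else 0 := by
        intro x
        rw [hM, Matrix.of_apply, dif_pos h]
        split_ifs <;> simp
      rw [Finset.sum_congr rfl fun x _ => h1 x, Finset.sum_ite_eq' Finset.univ (S ⟨a, h⟩)]
      simp
    · rw [← hV, Matrix.mul_apply]
      refine Finset.sum_congr rfl fun x _ => ?_
      rw [hM, Matrix.of_apply, dif_neg h]
  have hdN : (M * V').det = (V'.submatrix S (Fin.castLE hk)).det := by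
    rw [Matrix.twoBlockTriangular_det (M * V') (fun a => (a : ℕ) < k)]
    · have h1 : ((M * V').toSquareBlockProp fun i => ¬ (i : ℕ) < k) = 1 := by
        ext i j
        change (M * V') i.1 j.1 = _
        rw [hN, dif_neg i.2]
        rw [Matrix.one_apply, Matrix.one_apply]
        simp only [Subtype.ext_iff]
      rw [h1, Matrix.det_one, mul_one]
      have h2 : ((M * V').toSquareBlockProp fun i => (i : ℕ) < k).submatrix
          (Fin.castLEOrderIso hk).toEquiv (Fin.castLEOrderIso hk).toEquiv =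
          V'.submatrix S (Fin.castLE hk) := by
        ext i j
        change (M * V') (Fin.castLE hk i) (Fin.castLE hk j) = _
        rw [hN, Matrix.submatrix_apply]
        have h3 : ((Fin.castLE hk i : Fin r) : ℕ) < k := i.2
        rw [dif_pos h3]
        rfl
      rw [← h2, Matrix.det_submatrix_equiv_self]
    · intro i hi j hj
      rw [hN, dif_neg hi, Matrix.one_apply_ne]
      rintro rfl
      exact hi hj
  have h5 : V.det * V'.det = 1 := by rw [← Matrix.det_mul, hV, Matrix.det_one]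
  rw [← hdN, Matrix.det_mul]
  calc M.det = M.det * (V.det * V'.det) := by rw [h5, mul_one]
    _ = V.det * (M.det * V'.det) := by ring

end fc

/-- the value of the general point of the slice -/
noncomputable def yv {F : Type} [Field F] {r l : ℕ} (k : Fin l → ℕ) (blk : Fin r → ℕ)
    (x : FrF k blk → F) : Matrix (Fin r) (Fin r) F :=
  Matrix.of fun a b => (if a = b then 1 else 0) +
    if h : blk a = blk b ∧ ∃ j, (b : ℕ) < k j ∧ k j ≤ (a : ℕ) then x ⟨(a, b), h⟩ else 0

/-- every general block triangular matrix is in the slice, up to the choice of the bases -/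
theorem exists_slice {F : Type} [Field F] {r l : ℕ} (k : Fin l → ℕ) (hkm : StrictMono k)
    (hkr : ∀ j, k j ≤ r) (blk : Fin r → ℕ) (hblk : Monotone blk) (Z : Matrix (Fin r) (Fin r) F)
    (hZ : ∀ a b, Z a b ≠ 0 → blk a ≤ blk b)
    (hd : ∀ j, (Z.submatrix (Fin.castLE (hkr j)) (Fin.castLE (hkr j))).det ≠ 0) :
    ∃ (x : FrF k blk → F) (h : ∀ j, Matrix (Fin (k j)) (Fin (k j)) F), ∀ j, (h j).det ≠ 0 ∧
      fc (k j) (yv k blk x) = fc (k j) Z * h j := by
  classical
  rcases isEmpty_or_nonempty (Fin l) with hl | hl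
  · exact ⟨0, fun j => isEmptyElim j, fun j => isEmptyElim j⟩
  let Zj : ∀ j, Matrix (Fin (k j)) (Fin (k j)) F := fun j =>
    Z.submatrix (Fin.castLE (hkr j)) (Fin.castLE (hkr j))
  have hZj : ∀ j, Zj j * (Zj j)⁻¹ = 1 := fun j =>
    Matrix.mul_nonsing_inv _ (isUnit_iff_ne_zero.2 (hd j))
  -- the inverses are block triangular
  have hinv : ∀ j c b, (Zj j)⁻¹ c b ≠ 0 →
      blk (Fin.castLE (hkr j) c) ≤ blk (Fin.castLE (hkr j) b) := by
    intro j c b h
    have : Invertible (Zj j) := Matrix.invertibleOfIsUnitDet _ (isUnit_iff_ne_zero.2 (hd j))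
    have h1 : (Zj j).BlockTriangular (fun c => blk (Fin.castLE (hkr j) c)) := by
      intro c b hcb
      by_contra hne
      exact absurd (hZ _ _ hne) (not_le.2 hcb)
    have h2 := Matrix.blockTriangular_inv_of_blockTriangular h1
    by_contra hcon
    exact h (h2 (not_le.1 hcon))
  let R : ∀ j, Matrix (Fin r) (Fin (k j)) F := fun j => fc (k j) Z * (Zj j)⁻¹
  have hR1 : ∀ j (c b : Fin (k j)), R j (Fin.castLE (hkr j) c) b = if c = b then 1 else 0 := by
    intro j c b
    have h1 : R j (Fin.castLE (hkr j) c) b = (Zj j * (Zj j)⁻¹) c b := by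
      change (fc (k j) Z * (Zj j)⁻¹) _ _ = _
      rw [Matrix.mul_apply, Matrix.mul_apply]
      exact Finset.sum_congr rfl fun x _ => by rw [fc_apply (hkr j)]; rfl
    rw [h1, hZj, Matrix.one_apply]
  have hR2 : ∀ j (a : Fin r) (b : Fin (k j)), k j ≤ (a : ℕ) → R j a b ≠ 0 →
      blk a = blk (Fin.castLE (hkr j) b) := by
    intro j a b hab h
    change (fc (k j) Z * (Zj j)⁻¹) a b ≠ 0 at h
    rw [Matrix.mul_apply] at h
    obtain ⟨c, -, hc⟩ := Finset.exists_ne_zero_of_sum_ne_zero h
    have h1 : Z a (Fin.castLE (hkr j) c) ≠ 0 := by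
      intro h0
      apply hc
      rw [fc_apply (hkr j), h0, zero_mul]
    have h2 := hZ _ _ h1
    have h3 := hinv j c b (right_ne_zero_of_mul hc)
    apply le_antisymm (h2.trans h3)
    apply hblk
    rw [Fin.le_def, Fin.val_castLE]
    have := b.2
    omega
  have hj0 : ∀ b : Fin r, (∃ j, (b : ℕ) < k j) → ∃ j, (b : ℕ) < k j ∧
      ∀ j', (b : ℕ) < k j' → j ≤ j' := by
    intro b ⟨j, hj⟩
    obtain ⟨m, hm1, hm2⟩ := (wellFounded_lt (α := Fin l)).has_min {j | (b : ℕ) < k j} ⟨j, hj⟩
    exact ⟨m, hm1, fun j' hj' => not_lt.1 (hm2 j' hj')⟩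
  choose! j0 hj0a hj0b using hj0
  -- the point of the slice
  let x : FrF k blk → F := fun y =>
    if h : ((y.1.2 : Fin r) : ℕ) < k (j0 y.1.2) then R (j0 y.1.2) y.1.1 ⟨y.1.2, h⟩ else 0
  have hx : ∀ (a b : Fin r) (hb : (b : ℕ) < k (j0 b)), (∀ j', (b : ℕ) < k j' → j0 b ≤ j') →
      yv k blk x a b = R (j0 b) a ⟨b, hb⟩ := by
    intro a b hb hmin
    rw [yv, Matrix.of_apply]
    by_cases ha : (a : ℕ) < k (j0 b)
    · have h1 : ¬ (blk a = blk b ∧ ∃ j, (b : ℕ) < k j ∧ k j ≤ (a : ℕ)) := by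
        rintro ⟨-, j, hj1, hj2⟩
        have := hkm.monotone (hmin j hj1)
        omega
      rw [dif_neg h1, add_zero]
      have h2 := hR1 (j0 b) ⟨a, ha⟩ ⟨b, hb⟩
      have h3 : Fin.castLE (hkr (j0 b)) ⟨(a : ℕ), ha⟩ = a := rfl
      rw [h3] at h2
      rw [h2]
      simp only [Fin.ext_iff]
    · have hab : a ≠ b := by
        rintro rfl
        exact ha hb
      rw [if_neg hab, zero_add]
      by_cases h1 : blk a = blk b
      · rw [dif_pos ⟨h1, j0 b, hb, not_lt.1 ha⟩]
        change (if h : ((b : Fin r) : ℕ) < k (j0 b) then R (j0 b) a ⟨b, h⟩ else 0) = _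
        rw [dif_pos hb]
      · rw [dif_neg (fun h => h1 h.1)]
        by_contra hne
        exact h1 (hR2 (j0 b) a ⟨b, hb⟩ (not_lt.1 ha) (Ne.symm hne))
  let h : ∀ j, Matrix (Fin (k j)) (Fin (k j)) F := fun j => Matrix.of fun c b =>
    if hc : (c : ℕ) < k (j0 (Fin.castLE (hkr j) b)) ∧ (b : ℕ) < k (j0 (Fin.castLE (hkr j) b)) then
      (Zj (j0 (Fin.castLE (hkr j) b)))⁻¹ ⟨c, hc.1⟩ ⟨b, hc.2⟩ else 0
  have hfac : ∀ j, fc (k j) (yv k blk x) = fc (k j) Z * h j := by
    intro j
    ext a b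
    have hb' : ((Fin.castLE (hkr j) b : Fin r) : ℕ) < k j := b.2
    have hb := hj0a (Fin.castLE (hkr j) b) ⟨j, hb'⟩
    have hmin := hj0b (Fin.castLE (hkr j) b) ⟨j, hb'⟩
    rw [fc_apply (hkr j), hx a _ hb hmin]
    have hle : k (j0 (Fin.castLE (hkr j) b)) ≤ k j := hkm.monotone (hmin j hb')
    change (fc (k (j0 (Fin.castLE (hkr j) b))) Z * (Zj (j0 (Fin.castLE (hkr j) b)))⁻¹) a _ = _
    rw [Matrix.mul_apply, Matrix.mul_apply, sum_castLE hle]
    · refine Finset.sum_congr rfl fun c _ => ?_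
      rw [fc_apply (hkr _), fc_apply (hkr _)]
      change _ = _ * (if hc : ((Fin.castLE hle c : Fin (k j)) : ℕ) <
        k (j0 (Fin.castLE (hkr j) b)) ∧ (b : ℕ) < k (j0 (Fin.castLE (hkr j) b)) then
        (Zj (j0 (Fin.castLE (hkr j) b)))⁻¹ ⟨_, hc.1⟩ ⟨b, hc.2⟩ else 0)
      rw [dif_pos ⟨c.2, hb⟩]
      rfl
    · intro c hc
      change _ * (if hc : ((c : Fin (k j)) : ℕ) <
        k (j0 (Fin.castLE (hkr j) b)) ∧ (b : ℕ) < k (j0 (Fin.castLE (hkr j) b)) then
        (Zj (j0 (Fin.castLE (hkr j) b)))⁻¹ ⟨_, hc.1⟩ ⟨b, hc.2⟩ else 0) = 0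
      rw [dif_neg (fun h => hc h.1), mul_zero]
  refine ⟨x, h, fun j => ⟨?_, hfac j⟩⟩
  -- the upper block of the slice is unipotent
  have h1 : ((yv k blk x).submatrix (Fin.castLE (hkr j)) (Fin.castLE (hkr j))) = Zj j * h j := by
    ext c b
    have h2 := congrFun (congrFun (hfac j) (Fin.castLE (hkr j) c)) b
    rw [fc_apply (hkr j), Matrix.mul_apply] at h2
    rw [Matrix.submatrix_apply, h2, Matrix.mul_apply]
    exact Finset.sum_congr rfl fun x _ => by rw [fc_apply (hkr j)]; rfl
  have h2 : ((yv k blk x).submatrix (Fin.castLE (hkr j)) (Fin.castLE (hkr j))).det = 1 := by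
    rw [Matrix.det_of_isLowerTriangular]
    · refine Finset.prod_eq_one fun c _ => ?_
      rw [Matrix.submatrix_apply, yv, Matrix.of_apply, if_pos rfl, dif_neg, add_zero]
      rintro ⟨-, j', hj1, hj2⟩
      omega
    · intro a b hab
      have hab' : (a : ℕ) < (b : ℕ) := hab
      rw [Matrix.submatrix_apply, yv, Matrix.of_apply, if_neg, dif_neg, add_zero]
      · rintro ⟨-, j', hj1, hj2⟩
        simp only [Fin.val_castLE] at hj1 hj2
        omega
      · intro h3
        have := congrArg Fin.val h3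
        simp only [Fin.val_castLE] at this
        omega
  rw [h1, Matrix.det_mul] at h2
  intro h0
  rw [h0, mul_zero] at h2
  exact zero_ne_one h2

/-- Package DEN. -/
theorem den : S_DEN := by
  classical
  intro r l k hkm hk0 hkr blk hblk Y hY a s hs hsl
  have hkr' : ∀ j, k j ≤ r := fun j => (hkr j).le
  let A := MvPolynomial (VV blk) ℂ
  let F := FractionRing A
  let φ : A →ₐ[ℂ] F := IsScalarTower.toAlgHom ℂ A F
  have hφ : Function.Injective φ := IsFractionRing.injective A F
  -- the general matrix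
  let Wp : Matrix (Fin r) (Fin r) A := Matrix.of fun a b =>
    if h : blk a ≤ blk b then X ⟨a, ⟨b, h⟩⟩ else 0
  let e : A →ₐ[ℂ] ℂ := aeval fun x : VV blk => if x.1 = x.2.1 then (1 : ℂ) else 0
  have heW : Wp.map e = 1 := by
    ext a b
    change e (if h : blk a ≤ blk b then X ⟨a, ⟨b, h⟩⟩ else 0) = _
    rw [Matrix.one_apply]
    split_ifs with h1 h2 h2
    · exact (aeval_X _ _).trans (if_pos h2)
    · exact (aeval_X _ _).trans (if_neg h2)
    · exact absurd (h2 ▸ le_rfl) h1
    · exact map_zero e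
  let W : Matrix (Fin r) (Fin r) F := Wp.map φ
  have hWd : W.det ≠ 0 := by
    have h1 : W.det = φ Wp.det := (RingHom.map_det φ.toRingHom Wp).symm
    rw [h1]
    intro h0
    have h2 : Wp.det = 0 := hφ (by rw [h0, map_zero])
    have h3 : e Wp.det = (Wp.map e).det := RingHom.map_det e.toRingHom Wp
    rw [h2, map_zero, heW, Matrix.det_one] at h3
    exact zero_ne_one h3
  have hWZ : W * W⁻¹ = 1 := Matrix.mul_nonsing_inv _ (isUnit_iff_ne_zero.2 hWd)
  have hZt : ∀ a b, W⁻¹ a b ≠ 0 → blk a ≤ blk b := by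
    intro a b h
    have : Invertible W := Matrix.invertibleOfIsUnitDet _ (isUnit_iff_ne_zero.2 hWd)
    have h1 : W.BlockTriangular blk := by
      intro c b hcb
      change φ (if h : blk c ≤ blk b then X ⟨c, ⟨b, h⟩⟩ else 0) = 0
      rw [dif_neg (not_le.2 hcb), map_zero]
    have h2 := Matrix.blockTriangular_inv_of_blockTriangular h1
    by_contra hcon
    exact h (h2 (not_le.1 hcon))
  have hZd : ∀ j, (W⁻¹.submatrix (Fin.castLE (hkr' j)) (Fin.castLE (hkr' j))).det ≠ 0 := by
    intro j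
    have h1 : W⁻¹.submatrix (Fin.castLE (hkr' j)) (Fin.castLE (hkr' j)) =
        (W.det)⁻¹ • ((Wp.adjugate).submatrix (Fin.castLE (hkr' j)) (Fin.castLE (hkr' j))).map φ := by
      rw [Matrix.inv_def, Ring.inverse_eq_inv']
      have h2 : W.adjugate = Wp.adjugate.map φ := (RingHom.map_adjugate φ.toRingHom Wp).symm
      rw [h2]
      rfl
    rw [h1, Matrix.det_smul]
    refine mul_ne_zero (pow_ne_zero _ (inv_ne_zero hWd)) ?_
    have h3 : (((Wp.adjugate).submatrix (Fin.castLE (hkr' j)) (Fin.castLE (hkr' j))).map φ).det =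
        φ ((Wp.adjugate).submatrix (Fin.castLE (hkr' j)) (Fin.castLE (hkr' j))).det :=
      (RingHom.map_det φ.toRingHom _).symm
    rw [h3]
    intro h0
    have h4 : ((Wp.adjugate).submatrix (Fin.castLE (hkr' j)) (Fin.castLE (hkr' j))).det = 0 :=
      hφ (by rw [h0, map_zero])
    have h5 : e ((Wp.adjugate).submatrix (Fin.castLE (hkr' j)) (Fin.castLE (hkr' j))).det =
        (((Wp.adjugate).submatrix (Fin.castLE (hkr' j)) (Fin.castLE (hkr' j))).map e).det :=
      RingHom.map_det e.toRingHom _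
    have h6 : Wp.adjugate.map e = 1 := by
      have h7 : Wp.adjugate.map e = (Wp.map e).adjugate := RingHom.map_adjugate e.toRingHom Wp
      rw [h7, heW, Matrix.adjugate_one]
    have h8 : ((Wp.adjugate).submatrix (Fin.castLE (hkr' j)) (Fin.castLE (hkr' j))).map e =
        (1 : Matrix (Fin (k j)) (Fin (k j)) ℂ) := by
      have h9 : ((Wp.adjugate).submatrix (Fin.castLE (hkr' j)) (Fin.castLE (hkr' j))).map e =
        (Wp.adjugate.map e).submatrix (Fin.castLE (hkr' j)) (Fin.castLE (hkr' j)) := rfl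
      rw [h9, h6, Matrix.submatrix_one _ (Fin.castLE_injective _)]
    rw [h4, map_zero, h8, Matrix.det_one] at h5
    exact zero_ne_one h5
  obtain ⟨x, h, hh⟩ := exists_slice k hkm hkr' blk hblk W⁻¹ hZt hZd
  let YF : Matrix (Fin r) (Fin r) F := Y.map (algebraMap ℂ F)
  -- the value at the point of the slice vanishes
  have hval : aeval (fun y : Vr (fun j => Rk (k j) r) =>
      plu (fc (k y.1) (YF * yv k blk x)) y.2) s = (0 : F) := by
    let ψ : MvPolynomial (FrF k blk) ℂ →ₐ[ℂ] F := aeval x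
    have h1 := congrArg ψ hsl
    rw [map_zero] at h1
    rw [← h1, MvPolynomial.comp_aeval_apply]
    congr 2
    funext y
    rw [plu, plu]
    have h2 : ψ ((fc (k y.1) (Y.map MvPolynomial.C * yx k blk)).submatrix (sub (k y.1) r y.2)
        id).det = (((fc (k y.1) (Y.map MvPolynomial.C * yx k blk)).submatrix
          (sub (k y.1) r y.2) id).map ψ).det := RingHom.map_det ψ.toRingHom _
    rw [h2]
    congr 1
    ext c b
    rw [Matrix.map_apply, Matrix.submatrix_apply, Matrix.submatrix_apply, fc_apply (hkr' _),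
      fc_apply (hkr' _), Matrix.mul_apply, Matrix.mul_apply, map_sum]
    refine Finset.sum_congr rfl fun z _ => ?_
    rw [map_mul, Matrix.map_apply]
    congr 1
    · exact (ψ.commutes _).symm
    · rw [yv, yx, Matrix.of_apply, Matrix.of_apply, map_add]
      congr 1
      · split_ifs
        · exact (map_one ψ).symm
        · exact (map_zero ψ).symm
      · split_ifs
        · exact (aeval_X _ _).symm
        · exact (map_zero ψ).symm
  have hfc : ∀ j, fc (k j) (YF * yv k blk x) = fc (k j) (YF * W⁻¹) * h j := by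
    intro j
    rw [fc_mul (hkr' j), (hh j).2, ← Matrix.mul_assoc, ← fc_mul (hkr' j)]
  have hval2 : aeval (fun y : Vr (fun j => Rk (k j) r) =>
      plu (fc (k y.1) (YF * W⁻¹)) y.2) s = (0 : F) := by
    have h1 : (fun y : Vr (fun j => Rk (k j) r) => plu (fc (k y.1) (YF * yv k blk x)) y.2) =
        fun y : Vr (fun j => Rk (k j) r) => (h y.1).det * plu (fc (k y.1) (YF * W⁻¹)) y.2 := by
      funext y
      rw [hfc, plu_mul_right]
    rw [h1, aeval_scale hs (fun j => (h j).det) (fun y : Vr (fun j => Rk (k j) r) =>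
      plu (fc (k y.1) (YF * W⁻¹)) y.2)] at hval
    exact (mul_eq_zero.1 hval).resolve_left
      (Finset.prod_ne_zero_iff.2 fun j _ => pow_ne_zero _ (hh j).1)
  -- the Plücker coordinates
  apply hφ
  rw [map_zero, MvPolynomial.comp_aeval_apply]
  have hVV : (W * (Y⁻¹).map (algebraMap ℂ F)) * (YF * W⁻¹) = 1 := by
    have h1 : (Y⁻¹).map (algebraMap ℂ F) * YF = 1 := by
      have h2 := congrArg (fun M : Matrix (Fin r) (Fin r) ℂ => M.map (algebraMap ℂ F))
        (Matrix.nonsing_inv_mul Y (isUnit_iff_ne_zero.2 hY))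
      simp only [Matrix.map_mul] at h2
      rw [h2]
      exact Matrix.map_one _ (map_zero _) (map_one _)
    calc _ = W * (((Y⁻¹).map (algebraMap ℂ F) * YF) * W⁻¹) := by simp only [Matrix.mul_assoc]
      _ = 1 := by rw [h1, Matrix.one_mul, hWZ]
  have hpls : (fun y : Vr (fun j => Rk (k j) r) => φ (pls k blk Y⁻¹ y)) =
      fun y : Vr (fun j => Rk (k j) r) => (W * (Y⁻¹).map (algebraMap ℂ F)).det *
        plu (fc (k y.1) (YF * W⁻¹)) y.2 := by
    funext y
    have h1 := det_mix (hkr' y.1) _ _ hVV (sub (k y.1) r y.2)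
    have h2 : φ (pls k blk Y⁻¹ y) = ((Matrix.of fun (a c : Fin r) => if h : (a : ℕ) < k y.1 then
      (if c = sub (k y.1) r y.2 ⟨a, h⟩ then (1 : A) else 0)
        else vrow blk Y⁻¹ a c).map φ).det := RingHom.map_det φ.toRingHom _
    rw [h2]
    have h3 : ((Matrix.of fun (a c : Fin r) => if h : (a : ℕ) < k y.1 then
      (if c = sub (k y.1) r y.2 ⟨a, h⟩ then (1 : A) else 0)
        else vrow blk Y⁻¹ a c).map φ) = Matrix.of fun (a c : Fin r) => if h : (a : ℕ) < k y.1 then
      (if c = sub (k y.1) r y.2 ⟨a, h⟩ then (1 : F) else 0)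
        else (W * (Y⁻¹).map (algebraMap ℂ F)) a c := by
      ext a c
      rw [Matrix.map_apply, Matrix.of_apply, Matrix.of_apply]
      split_ifs with h4 h5
      · exact map_one φ
      · exact map_zero φ
      · rw [vrow, Matrix.of_apply, map_sum, Matrix.mul_apply]
        have h6 : ∀ b : Fin r, W a b * (Y⁻¹).map (algebraMap ℂ F) b c =
            if h : blk a ≤ blk b then φ (MvPolynomial.C (Y⁻¹ b c) * X ⟨a, ⟨b, h⟩⟩) else 0 := by
          intro b
          change φ (if h : blk a ≤ blk b then X ⟨a, ⟨b, h⟩⟩ else 0) * algebraMap ℂ F (Y⁻¹ b c) = _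
          split_ifs with h7
          · rw [map_mul, mul_comm]
            congr 1
          · rw [map_zero, zero_mul]
        rw [Finset.sum_congr rfl fun b _ => h6 b]
        refine Fintype.sum_of_injective (Subtype.val : {b : Fin r // blk a ≤ blk b} → Fin r)
          Subtype.val_injective _ _ ?_ ?_
        · intro b hb
          rw [dif_neg]
          intro h7
          exact hb ⟨⟨b, h7⟩, rfl⟩
        · intro b
          rw [dif_pos b.2]
    rw [h3, h1, plu]
    congr 2
    ext c b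
    rw [Matrix.submatrix_apply, Matrix.submatrix_apply, fc_apply (hkr' _)]
    rfl
  rw [hpls, aeval_scale hs (fun _ => (W * (Y⁻¹).map (algebraMap ℂ F)).det)
    (fun y : Vr (fun j => Rk (k j) r) => plu (fc (k y.1) (YF * W⁻¹)) y.2), hval2, mul_zero]

end Pool.Agent.Helper2.FL

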