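import Pool.Agent.Helper2.FL.Den
import Pool.Agent.Helper9.FJ.Basic

/-!
Project FL, package FDEG: the degrees are positive.
-/

set_option autoImplicit false

namespace Pool.Agent.Helper2.FL

open FF Module MvPolynomial Pool.Agent.Helper9.FJ Pool.Agent.Helper9.PP Pool.Agent.Helper9.GR
  Pool.Agent.Helper9.FL Matrix

/-- scaling of the variables in a multihomogeneous polynomial, only the groups of positive degree
matter -/
theorem eval_scale' {K : Type} [Field K] {l : ℕ} {r : Fin l → ℕ} {a : Fin l → ℕ}
    {s : MvPolynomial (Vr r) K} (hs : IsMh a s) (c : Fin l → K) (v v' : Vr r → K)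
    (h : ∀ x : Vr r, a x.1 ≠ 0 → v' x = c x.1 * v x) :
    eval v' s = (∏ j, c j ^ a j) * eval v s := by
  rw [eval_eq', eval_eq', Finset.mul_sum]
  refine Finset.sum_congr rfl fun α hα => ?_
  have h1 := hs α (by simpa [MvPolynomial.mem_support_iff] using hα)
  have h2 : ∏ x : Vr r, (v' x) ^ α x = (∏ j, c j ^ a j) * ∏ x : Vr r, v x ^ α x := by
    have h3 : ∀ x : Vr r, v' x ^ α x = c x.1 ^ α x * v x ^ α x := by
      intro x
      by_cases hx : a x.1 = 0
      · have h4 := h1 x.1
        rw [hx] at h4
        have h5 : α x = 0 := by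
          obtain ⟨j', i⟩ := x
          exact (Finset.sum_eq_zero_iff.1 h4) i (Finset.mem_univ _)
        rw [h5, pow_zero, pow_zero, pow_zero, mul_one]
      · rw [h x hx, mul_pow]
    rw [Finset.prod_congr rfl (fun x _ => h3 x), Finset.prod_mul_distrib]
    congr 1
    rw [Fintype.prod_sigma]
    refine Finset.prod_congr rfl fun j _ => ?_
    rw [← h1 j]
    exact Finset.prod_pow_eq_pow_sum Finset.univ (fun y => α ⟨j, y⟩) (c j)
  rw [h2]
  ring

/-- Package FDEG. -/
theorem fdeg : S_FDEG := by
  classical
  intro K _ _ _ r l k hkm hk0 hkr E a N h j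
  by_contra ha
  have ha0 : a j = 0 := by omega
  obtain ⟨P, -⟩ := exists_place (k := ℂ) (K := K)
  have hkr' : ∀ j, k j ≤ r := fun j => (hkr j).le
  let u : Fin r := ⟨k j - 1, by have := hk0 j; have := hkr j; omega⟩
  let v : Fin r := ⟨k j, hkr j⟩
  let σ : Equiv.Perm (Fin r) := Equiv.swap u v
  let Θ : Matrix (Fin r) (Fin r) ℂ := (1 : Matrix (Fin r) (Fin r) ℂ).submatrix id σ
  have hΘ : Θ.det ≠ 0 := by
    change ((1 : Matrix (Fin r) (Fin r) ℂ).submatrix id σ).det ≠ 0
    rw [Matrix.det_permute', Matrix.det_one, mul_one]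
    rcases Int.units_eq_one_or (Equiv.Perm.sign σ) with h1 | h1 <;> rw [h1] <;> simp
  have hΘa : ∀ a b, Θ a b = if a = σ b then 1 else 0 := fun a b => Matrix.one_apply
  obtain ⟨s, hs, h1, h2⟩ := h.2.1 P P 1 Θ (by rw [Matrix.det_one]; exact one_ne_zero) hΘ (by
    intro _
    refine ⟨j, ?_⟩
    rintro ⟨g, hg⟩
    have hb : k j - 1 < k j := by have := hk0 j; omega
    have h3 := congrFun (congrFun hg v) ⟨k j - 1, hb⟩
    rw [fc_apply (hkr' j), hΘa, Matrix.mul_apply] at h3
    have h4 : v = σ (Fin.castLE (hkr' j) ⟨k j - 1, hb⟩) := by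
      change v = Equiv.swap u v u
      rw [Equiv.swap_apply_left]
    rw [if_pos h4, Finset.sum_eq_zero] at h3
    · exact one_ne_zero h3
    · intro c _
      rw [fc_apply (hkr' j), Matrix.one_apply_ne, zero_mul]
      intro h5
      have := congrArg Fin.val h5
      simp only [Fin.val_castLE] at this
      have h6 : (v : ℕ) = k j := rfl
      have := c.2
      omega)
  apply h2
  -- the other steps of the flag do not change
  let g : ∀ i, Matrix (Fin (k i)) (Fin (k i)) K := fun i =>
    (Θ.map (algebraMap ℂ K)).submatrix (Fin.castLE (hkr' i)) (Fin.castLE (hkr' i))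
  have hσ : ∀ i, i ≠ j → ∀ b : Fin r, (b : ℕ) < k i → ((σ b : Fin r) : ℕ) < k i := by
    intro i hij b hb
    have hu : (u : ℕ) = k j - 1 := rfl
    have hv : (v : ℕ) = k j := rfl
    have hkj := hk0 j
    rcases lt_or_gt_of_ne hij with hlt | hlt
    · have h3 := hkm hlt
      have h4 : σ b = b := by
        apply Equiv.swap_apply_of_ne_of_ne
        · intro h5
          have := congrArg Fin.val h5
          omega
        · intro h5
          have := congrArg Fin.val h5
          omega
      rw [h4]
      exact hb
    · have h3 := hkm hlt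
      by_cases hbu : b = u
      · have h4 : σ b = v := by rw [hbu]; exact Equiv.swap_apply_left u v
        rw [h4]
        omega
      · by_cases hbv : b = v
        · have h4 : σ b = u := by rw [hbv]; exact Equiv.swap_apply_right u v
          rw [h4]
          omega
        · have h4 : σ b = b := Equiv.swap_apply_of_ne_of_ne hbu hbv
          rw [h4]
          exact hb
  have hfac : ∀ i, i ≠ j → fc (k i) (Θ.map (algebraMap ℂ K)) =
      fc (k i) ((1 : Matrix (Fin r) (Fin r) ℂ).map (algebraMap ℂ K)) * g i := by
    intro i hij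
    ext x b
    rw [fc_apply (hkr' i), Matrix.mul_apply]
    have h3 : ∀ c : Fin (k i), fc (k i) ((1 : Matrix (Fin r) (Fin r) ℂ).map (algebraMap ℂ K)) x c *
        g i c b = if x = Fin.castLE (hkr' i) c then
          (Θ.map (algebraMap ℂ K)) x (Fin.castLE (hkr' i) b) else 0 := by
      intro c
      rw [fc_apply (hkr' i), Matrix.map_apply, Matrix.one_apply]
      split_ifs with h4
      · rw [map_one, one_mul, h4]
        rfl
      · rw [map_zero, zero_mul]
    rw [Finset.sum_congr rfl fun c _ => h3 c]
    by_cases hx : (x : ℕ) < k i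
    · rw [Finset.sum_eq_single (⟨x, hx⟩ : Fin (k i))]
      · exact (if_pos rfl).symm
      · intro c _ hc
        rw [if_neg]
        intro h4
        apply hc
        apply Fin.ext
        exact (congrArg Fin.val h4).symm
      · intro h4
        exact absurd (Finset.mem_univ _) h4
    · rw [Finset.sum_eq_zero]
      · rw [Matrix.map_apply, hΘa, if_neg, map_zero]
        intro h4
        apply hx
        rw [h4]
        exact hσ i hij _ b.2
      · intro c _
        rw [if_neg]
        intro h4
        apply hx
        rw [h4]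
        exact c.2
  have hsc := eval_scale' hs.1 (fun i => (g i).det)
    (plF k E P ((1 : Matrix (Fin r) (Fin r) ℂ).map (algebraMap ℂ K)))
    (plF k E P (Θ.map (algebraMap ℂ K))) (by
      intro x hx
      have hxj : x.1 ≠ j := by
        intro h3
        rw [h3] at hx
        exact hx ha0
      rw [plF, plF, plp, plp]
      have h3 : plu (fc (k x.1) (Θ.map (algebraMap ℂ K))) = (g x.1).det •
          plu (fc (k x.1) ((1 : Matrix (Fin r) (Fin r) ℂ).map (algebraMap ℂ K))) := by
        funext i
        rw [hfac x.1 hxj, plu_mul_right]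
        rfl
      rw [h3, Matrix.mulVec_smul]
      rfl)
  rw [hsc]
  have hu : Ge P 0 (∏ i, (g i).det ^ a i) := by
    refine Ge.prod0 _ fun i _ => ?_
    have h3 : Ge P 0 (g i).det := by
      refine ge_det fun x y => ?_
      change Ge P 0 (algebraMap ℂ K (Θ _ _))
      exact ge_const _
    have h4 := h3.pow (a i)
    rwa [mul_zero] at h4
  have h3 := hu.mul h1
  rwa [zero_add] at h3

end Pool.Agent.Helper2.FL

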